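import Mathlib

/-!
Algebraic part: if a group has enough commuting copies of a certain system, then the
rational group algebra has zero Jacobson radical.
-/

namespace Pool.Agent.Lib.MP_146d92_al

open MonoidAlgebra

/-- If `n` divides `2 ^ n - 1` then `n = 1`. -/
theorem eq_one_of_dvd_two_pow_sub_one {n : ℕ} (hn : 0 < n) (h : n ∣ 2 ^ n - 1) : n = 1 := by
  by_contra hne
  set p := n.minFac with hp
  have hpp : p.Prime := Nat.minFac_prime hne
  have hpn : p ∣ n := Nat.minFac_dvd n
  have : Fact p.Prime := ⟨hpp⟩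
  have hpd : p ∣ 2 ^ n - 1 := hpn.trans h
  have hone : 1 ≤ 2 ^ n := Nat.one_le_two_pow
  have h2 : ((2 : ZMod p)) ^ n = 1 := by
    have h0 : ((2 ^ n - 1 : ℕ) : ZMod p) = 0 := (ZMod.natCast_eq_zero_iff _ _).2 hpd
    rw [Nat.cast_sub hone] at h0
    push_cast at h0
    exact sub_eq_zero.1 h0
  have h2ne : (2 : ZMod p) ≠ 0 := by
    intro h0
    rw [h0, zero_pow hn.ne'] at h2
    exact zero_ne_one h2
  have hord : orderOf (2 : ZMod p) ∣ n := orderOf_dvd_of_pow_eq_one h2
  have hord' : orderOf (2 : ZMod p) ∣ p - 1 := ZMod.orderOf_dvd_card_sub_one h2ne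
  have hordpos : 0 < orderOf (2 : ZMod p) :=
    Nat.pos_of_dvd_of_pos hord hn
  have h1 : orderOf (2 : ZMod p) = 1 := by
    by_contra hne1
    have hq := Nat.minFac_prime hne1
    have hqn : (orderOf (2 : ZMod p)).minFac ∣ n := (Nat.minFac_dvd _).trans hord
    have hle : p ≤ (orderOf (2 : ZMod p)).minFac := Nat.minFac_le_of_dvd hq.two_le hqn
    have hle2 : (orderOf (2 : ZMod p)).minFac ≤ p - 1 :=
      (Nat.minFac_le hordpos).trans (Nat.le_of_dvd (Nat.sub_pos_of_lt hpp.one_lt) hord')
    have := hpp.one_lt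
    omega
  rw [orderOf_eq_one_iff] at h1
  have : (1 : ZMod p) = 0 := by
    have h3 : (2 : ZMod p) = 1 + 1 := by norm_num
    rw [h3] at h1
    simpa using h1
  exact one_ne_zero this

section Group
variable {G : Type*} [Group G]

/-- `b⁻¹ a b = a²` implies `b⁻ᵏ a bᵏ = a^(2^k)`. -/
theorem conj_pow_aux {a b : G} (hab : a * b = b * a ^ 2) (k : ℕ) :
    a * b ^ k = b ^ k * a ^ (2 ^ k) := by
  have key : ∀ m : ℕ, a ^ m * b = b * a ^ (2 * m) := by
    intro m
    induction m with
    | zero => simp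
    | succ m ih =>
      rw [pow_succ', mul_assoc, ih, ← mul_assoc, hab, mul_assoc, ← pow_add]
      congr 2
      ring
  induction k with
  | zero => simp
  | succ k ih =>
    rw [pow_succ, ← mul_assoc, ih, mul_assoc, key, ← mul_assoc, pow_succ, mul_comm 2]

/-- If `b⁻¹ a b = a²`, `a` and `b` are conjugate, and `a ≠ 1`, then `a` has infinite order. -/
theorem orderOf_eq_zero_of_relations {a b c : G} (hab : a * b = b * a ^ 2)
    (hc : c * a = b * c) (ha : a ≠ 1) : orderOf a = 0 := by
  by_contra hn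
  have hbc : b = c * a * c⁻¹ := by rw [hc]; group
  have hordb : orderOf b = orderOf a := by
    rw [hbc]
    exact orderOf_injective (MulAut.conj c).toMonoidHom (MulAut.conj c).injective a
  have hpos : 0 < orderOf a := Nat.pos_of_ne_zero hn
  have h1 : a = a ^ (2 ^ orderOf a) := by
    have := conj_pow_aux hab (orderOf a)
    rw [← hordb, pow_orderOf_eq_one, mul_one, one_mul] at this
    rw [← hordb]
    exact this
  have h2 : a ^ (2 ^ orderOf a - 1) = 1 := by
    have h3 : a ^ (2 ^ orderOf a - 1) * a = 1 * a := by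
      rw [← pow_succ, Nat.sub_add_cancel Nat.one_le_two_pow, one_mul]
      exact h1.symm
    exact mul_right_cancel h3
  have h4 := eq_one_of_dvd_two_pow_sub_one hpos (orderOf_dvd_of_pow_eq_one h2)
  exact ha (orderOf_eq_one_iff.1 h4)

/-- Key independence statement. -/
theorem zpow_mem_imp {a b c : G} (hab : a * b = b * a ^ 2)
    (hc : c * a = b * c) (ha : a ≠ 1) (H : Subgroup G)
    (hb : ∀ h ∈ H, b * h = h * b) (k : ℤ) (hk : a ^ k ∈ H) : k = 0 := by
  have hord := orderOf_eq_zero_of_relations hab hc ha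
  have h1 := hb _ hk
  -- b * a^k = a^k * b = b * a^(2k)
  have h2 : b⁻¹ * a * b = a ^ 2 := by rw [mul_assoc, hab, inv_mul_cancel_left]
  have h3 : b⁻¹ * a ^ k * b = a ^ (2 * k) := by
    have : b⁻¹ * a ^ k * b = (b⁻¹ * a * b) ^ k := by
      have := (map_zpow (MulAut.conj b⁻¹) a k)
      simpa [MulAut.conj_apply] using this
    rw [this, h2, zpow_mul]
    norm_cast
  have h4 : b⁻¹ * a ^ k * b = a ^ k := by
    rw [mul_assoc, ← h1, inv_mul_cancel_left]
  rw [h4] at h3
  have h5 : a ^ k = 1 := by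
    have : a ^ (2 * k) = a ^ k * a ^ k := by rw [two_mul, zpow_add]
    rw [this] at h3
    exact left_eq_mul.1 h3
  have h6 := orderOf_dvd_iff_zpow_eq_one.2 h5
  rw [hord] at h6
  simpa using h6

end Group

end Pool.Agent.Lib.MP_146d92_al
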