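import Pool.Agent.Lib.MP_146d92_al.Semiprimitive

namespace Pool.Agent.Lib.MP_146d92_al

/-- Translation by one on `ℚ`. -/
def permA : Equiv.Perm ℚ := Equiv.addRight 1

/-- Division by two on `ℚ`. -/
def permB : Equiv.Perm ℚ := Equiv.mulRight₀ (1 / 2 : ℚ) (by norm_num)

theorem permA_zpow_apply (k : ℤ) (x : ℚ) : (permA ^ k) x = x + k := by
  simp [permA]

theorem permB_npow_apply (k : ℕ) (x : ℚ) : (permB ^ k) x = x * (1 / 2) ^ k := by
  induction k generalizing x with
  | zero => simp
  | succ k ih =>
    rw [pow_succ, Equiv.Perm.mul_apply, ih]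
    simp only [permB, Equiv.mulRight₀_apply]
    ring

theorem permA_rel : permA * permB = permB * permA ^ 2 := by
  ext x
  simp only [Equiv.Perm.mul_apply, pow_two]
  simp only [permA, permB, Equiv.coe_addRight, Equiv.mulRight₀_apply]
  ring

theorem permA_inj : Function.Injective (zpowersHom (Equiv.Perm ℚ) permA) := by
  intro m n h
  have h1 := congrArg (fun e : Equiv.Perm ℚ => e 0) h
  simp only [zpowersHom_apply, permA_zpow_apply, zero_add, Int.cast_inj] at h1
  exact Multiplicative.toAdd.injective h1

theorem permB_orderOf : orderOf permB = 0 := by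
  rw [orderOf_eq_zero_iff']
  intro n hn h
  have h1 := congrArg (fun e : Equiv.Perm ℚ => e 1) h
  simp only [permB_npow_apply, one_mul, Equiv.Perm.one_apply] at h1
  have h2 : (1 / 2 : ℚ) ^ n < 1 := pow_lt_one₀ (by norm_num) (by norm_num) hn.ne'
  rw [h1] at h2
  exact lt_irrefl _ h2

theorem permB_inj : Function.Injective (zpowersHom (Equiv.Perm ℚ) permB) := by
  intro m n h
  simp only [zpowersHom_apply] at h
  have h1 : permB ^ (Multiplicative.toAdd m - Multiplicative.toAdd n) = 1 := by
    rw [zpow_sub, h, mul_inv_cancel]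
  have h2 := orderOf_dvd_iff_zpow_eq_one.2 h1
  rw [permB_orderOf] at h2
  have h3 : Multiplicative.toAdd m - Multiplicative.toAdd n = 0 := by simpa using h2
  exact Multiplicative.toAdd.injective (sub_eq_zero.1 h3)

/-- The isomorphism between the two infinite cyclic subgroups. -/
noncomputable def phi : (zpowersHom (Equiv.Perm ℚ) permA).range ≃*
    (zpowersHom (Equiv.Perm ℚ) permB).range :=
  (MonoidHom.ofInjective permA_inj).symm.trans (MonoidHom.ofInjective permB_inj)

/-- The HNN extension. -/
abbrev HNN : Type :=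
  HNNExtension (Equiv.Perm ℚ) (zpowersHom (Equiv.Perm ℚ) permA).range
    (zpowersHom (Equiv.Perm ℚ) permB).range phi

theorem phi_apply : (phi ⟨permA, ⟨Multiplicative.ofAdd 1, by simp⟩⟩ : Equiv.Perm ℚ) = permB := by
  have h : (⟨permA, ⟨Multiplicative.ofAdd 1, by simp⟩⟩ :
      (zpowersHom (Equiv.Perm ℚ) permA).range) =
      MonoidHom.ofInjective permA_inj (Multiplicative.ofAdd 1) := by
    apply Subtype.ext
    rw [MonoidHom.ofInjective_apply]
    simp
  rw [h, phi, MulEquiv.trans_apply, MulEquiv.symm_apply_apply, MonoidHom.ofInjective_apply]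
  simp

/-- There is a countable group with a nontrivial solution of the system. -/
theorem exists_group : ∃ (K : Type) (_ : Group K) (_ : Countable K) (a b c : K),
    a * b = b * a ^ 2 ∧ c * a = b * c ∧ a ≠ 1 := by
  let A : HNN := HNNExtension.of permA
  let B : HNN := HNNExtension.of permB
  let C : HNN := HNNExtension.t
  have h1 : A * B = B * A ^ 2 := by
    simp only [A, B]
    rw [← map_mul, permA_rel, map_mul, map_pow]
  have h2 : C * A = B * C := by
    have := HNNExtension.t_mul_of (φ := phi) ⟨permA, ⟨Multiplicative.ofAdd 1, by simp⟩⟩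
    rw [phi_apply] at this
    exact this
  have h3 : A ≠ 1 := by
    intro h
    have h4 : permA = 1 := by
      apply HNNExtension.of_injective (φ := phi)
      rw [map_one]
      exact h
    have h5 := congrArg (fun e : Equiv.Perm ℚ => e 0) h4
    simp [permA] at h5
  let f : FreeGroup (Fin 3) →* HNN := FreeGroup.lift ![A, B, C]
  refine ⟨f.range, inferInstance, ?_, ⟨A, FreeGroup.of 0, by simp [f]⟩,
    ⟨B, FreeGroup.of 1, by simp [f]⟩, ⟨C, FreeGroup.of 2, by simp [f]⟩, ?_, ?_, ?_⟩
  · have : Countable (Set.range f) := (Set.countable_range f).to_subtype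
    exact this
  · exact Subtype.ext h1
  · exact Subtype.ext h2
  · intro h
    exact h3 (congrArg Subtype.val h)

end Pool.Agent.Lib.MP_146d92_al
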