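import Pool.Agent.Lib.MP_146d92_al.Algebra

namespace Pool.Agent.Lib.MP_146d92_al

open MonoidAlgebra

variable {G : Type*} [Group G]

/-- The involution `g ↦ g⁻¹` on the rational group algebra. -/
noncomputable def inv' (x : MonoidAlgebra ℚ G) : MonoidAlgebra ℚ G :=
  ofCoeff (Finsupp.equivMapDomain (Equiv.inv G) x.coeff)

@[simp] theorem inv'_coeff (x : MonoidAlgebra ℚ G) (g : G) :
    (inv' x).coeff g = x.coeff g⁻¹ := by
  simp [inv', Finsupp.equivMapDomain_apply]

theorem inv'_add (x y : MonoidAlgebra ℚ G) : inv' (x + y) = inv' x + inv' y := by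
  ext g; simp

theorem inv'_zero : inv' (0 : MonoidAlgebra ℚ G) = 0 := by
  ext g; simp

theorem inv'_inv' (x : MonoidAlgebra ℚ G) : inv' (inv' x) = x := by
  ext g; simp

theorem inv'_single (g : G) (r : ℚ) : inv' (single g r) = single g⁻¹ r := by
  classical
  ext h
  simp only [inv'_coeff, coeff_single, Finsupp.single_apply]
  congr 1
  simp only [eq_iff_iff]
  constructor
  · rintro h1; rw [h1, inv_inv]
  · rintro h1; rw [← h1, inv_inv]

theorem inv'_mul (x y : MonoidAlgebra ℚ G) : inv' (x * y) = inv' y * inv' x := by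
  induction x using MonoidAlgebra.induction_linear with
  | zero => simp [inv'_zero]
  | add x1 x2 h1 h2 => rw [add_mul, inv'_add, h1, h2, inv'_add, mul_add]
  | single m r =>
    induction y using MonoidAlgebra.induction_linear with
    | zero => simp [inv'_zero]
    | add y1 y2 h1 h2 => rw [mul_add, inv'_add, h1, h2, inv'_add, add_mul]
    | single n s =>
      simp [inv'_single, mul_comm]

theorem trace_pos {x : MonoidAlgebra ℚ G} (hx : x ≠ 0) : 0 < (inv' x * x).coeff 1 := by
  rw [coeff_mul_apply_right]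
  simp only [inv'_coeff, one_mul, inv_inv, Finsupp.sum]
  apply Finset.sum_pos
  · intro i hi
    have : x.coeff i ≠ 0 := by simpa using hi
    exact mul_self_pos.2 this
  · rw [Finsupp.support_nonempty_iff]
    simpa using hx

theorem not_nilpotent_of_symm {w : MonoidAlgebra ℚ G} (hw : w ≠ 0) (hs : inv' w = w) :
    ¬ IsNilpotent w := by
  have key : ∀ n : ℕ, w ^ (2 ^ n) ≠ 0 ∧ inv' (w ^ (2 ^ n)) = w ^ (2 ^ n) := by
    intro n
    induction n with
    | zero => simpa using ⟨hw, hs⟩
    | succ n ih =>
      obtain ⟨h1, h2⟩ := ih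
      rw [pow_succ, pow_mul, pow_two]
      refine ⟨?_, ?_⟩
      · intro h0
        have := trace_pos h1
        rw [h2, h0] at this
        simp at this
      · rw [inv'_mul, h2]
  rintro ⟨m, hm⟩
  apply (key m).1
  exact pow_eq_zero_of_le (Nat.lt_two_pow_self).le hm

/-- A left ideal of the rational group algebra all of whose elements are nilpotent is zero. -/
theorem eq_zero_of_nil {x : MonoidAlgebra ℚ G}
    (h : ∀ y : MonoidAlgebra ℚ G, IsNilpotent (y * x)) : x = 0 := by
  by_contra hx
  have h0 : inv' x * x ≠ 0 := by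
    intro h0
    have := trace_pos hx
    rw [h0] at this
    simp at this
  exact not_nilpotent_of_symm h0 (by rw [inv'_mul, inv'_inv']) (h _)

/-- Restriction to a subgroup. -/
noncomputable def res (H : Subgroup G) (z : MonoidAlgebra ℚ G) : MonoidAlgebra ℚ G :=
  open Classical in ofCoeff (z.coeff.filter (· ∈ H))

open Classical in
theorem res_coeff (H : Subgroup G) (z : MonoidAlgebra ℚ G) (g : G) :
    (res H z).coeff g = if g ∈ H then z.coeff g else 0 := by
  simp [res, Finsupp.filter_apply]

theorem res_add (H : Subgroup G) (x y : MonoidAlgebra ℚ G) :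
    res H (x + y) = res H x + res H y := by
  ext g
  simp only [res_coeff, coeff_add, Finsupp.add_apply]
  split_ifs <;> simp

theorem res_mul (H : Subgroup G) {x : MonoidAlgebra ℚ G} (hx : ∀ g ∈ x.coeff.support, g ∈ H)
    (z : MonoidAlgebra ℚ G) : res H (x * z) = x * res H z := by
  ext g
  rw [res_coeff, coeff_mul_apply_left, coeff_mul_apply_left]
  by_cases hg : g ∈ H
  · rw [if_pos hg]
    apply Finsupp.sum_congr
    intro h hh
    rw [res_coeff, if_pos]
    exact H.mul_mem (H.inv_mem (hx h hh)) hg
  · rw [if_neg hg]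
    symm
    apply Finset.sum_eq_zero
    intro h hh
    dsimp only
    rw [res_coeff, if_neg]
    · simp
    · intro h1
      apply hg
      have := H.mul_mem (hx h hh) h1
      simpa using this

theorem res_one (H : Subgroup G) : res H (1 : MonoidAlgebra ℚ G) = 1 := by
  classical
  ext g
  rw [res_coeff, one_def, coeff_single, Finsupp.single_apply]
  split_ifs with h1 h2 h2
  · rfl
  · rfl
  · exact absurd (h2 ▸ H.one_mem) h1
  · rfl

theorem res_single_of_notMem (H : Subgroup G) {g : G} (hg : g ∉ H) (r : ℚ) :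
    res H (single g r : MonoidAlgebra ℚ G) = 0 := by
  classical
  ext h
  rw [res_coeff, coeff_single, Finsupp.single_apply]
  split_ifs with h1 h2
  · exact absurd (h2 ▸ h1) hg
  · rfl
  · rfl

theorem commute_single {H : Subgroup G} {x : MonoidAlgebra ℚ G}
    (hx : ∀ g ∈ x.coeff.support, g ∈ H) {a : G} (ha : ∀ h ∈ H, a * h = h * a) :
    single a 1 * x = x * single a 1 := by
  ext g
  rw [coeff_single_mul_apply, coeff_mul_single_apply, one_mul, mul_one]
  by_cases h1 : a⁻¹ * g ∈ x.coeff.support
  · have h2 := hx _ h1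
    have h3 := ha _ h2
    rw [mul_inv_cancel_left] at h3
    congr 1
    calc a⁻¹ * g = (a⁻¹ * g * a) * a⁻¹ := by group
      _ = g * a⁻¹ := by rw [← h3]
  · by_cases h4 : g * a⁻¹ ∈ x.coeff.support
    · have h2 := hx _ h4
      have h3 := ha _ h2
      rw [inv_mul_cancel_right] at h3
      congr 1
      calc a⁻¹ * g = a⁻¹ * (a * (g * a⁻¹)) := by rw [h3]
        _ = g * a⁻¹ := by group
    · rw [Finsupp.notMem_support_iff.1 h1, Finsupp.notMem_support_iff.1 h4]

/-- Main nilpotency lemma. -/
theorem isNilpotent_of_inverse {H : Subgroup G} {x y : MonoidAlgebra ℚ G}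
    (hx : ∀ g ∈ x.coeff.support, g ∈ H) {a : G} (ha : ∀ h ∈ H, a * h = h * a)
    (hind : ∀ k : ℤ, a ^ k ∈ H → k = 0)
    (hy : (1 - single a 1 * x) * y = 1) : IsNilpotent x := by
  have hazpow : ∀ k : ℤ, ∀ h ∈ H, a ^ k * h = h * a ^ k := by
    intro k h hh
    have : Commute a h := ha h hh
    exact (this.zpow_left k).eq
  set z : ℤ → MonoidAlgebra ℚ G := fun k => res H (single (a ^ (-k)) 1 * y) with hz
  have hy' : y = 1 + single a 1 * x * y := by
    rw [sub_mul, one_mul] at hy
    rw [← hy]; abel
  have hrec : ∀ k : ℤ, z k = res H (single (a ^ (-k)) 1) + x * z (k - 1) := by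
    intro k
    have h1 : single (a ^ (-k)) (1 : ℚ) * y
        = single (a ^ (-k)) 1 + x * (single (a ^ (-(k - 1))) 1 * y) := by
      conv_lhs => rw [hy']
      rw [mul_add, mul_one]
      congr 1
      rw [← mul_assoc, ← mul_assoc, single_mul_single, mul_one, ← mul_assoc,
        ← commute_single hx (hazpow _)]
      congr 3
      rw [← zpow_add_one]
      congr 1
      ring
    simp only [hz]
    rw [h1, res_add, res_mul H hx]
  have hrec1 : ∀ k : ℤ, k ≠ 0 → z k = x * z (k - 1) := by
    intro k hk
    rw [hrec, res_single_of_notMem, zero_add]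
    intro h
    exact hk (neg_eq_zero.1 (hind _ h))
  have hfin : {k : ℤ | z k ≠ 0}.Finite := by
    have hsub : {k : ℤ | z k ≠ 0} ⊆ ⋃ s ∈ y.coeff.support, {k : ℤ | a ^ (-k) * s ∈ H} := by
      intro k hk
      have : ∃ g, (z k).coeff g ≠ 0 := by
        by_contra hcon
        push Not at hcon
        apply hk
        ext g
        simpa using hcon g
      obtain ⟨g, hg⟩ := this
      simp only [hz] at hg
      rw [res_coeff] at hg
      by_cases hgH : g ∈ H
      · rw [if_pos hgH, coeff_single_mul_apply, one_mul] at hg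
        simp only [Set.mem_iUnion]
        refine ⟨_, Finsupp.mem_support_iff.2 hg, ?_⟩
        simpa using hgH
      · rw [if_neg hgH] at hg
        exact absurd rfl hg
    refine Set.Finite.subset ?_ hsub
    apply Set.Finite.biUnion (Finset.finite_toSet _)
    intro s _
    apply Set.Subsingleton.finite
    intro k hk l hl
    change a ^ (-k) * s ∈ H at hk
    change a ^ (-l) * s ∈ H at hl
    have h1 : a ^ (l - k) ∈ H := by
      have h2 := H.mul_mem hk (H.inv_mem hl)
      have h3 : a ^ (-k) * s * (a ^ (-l) * s)⁻¹ = a ^ (l - k) := by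
        rw [mul_inv_rev, mul_assoc, mul_inv_cancel_left, ← zpow_neg, ← zpow_add]
        congr 1; ring
      rwa [h3] at h2
    have := hind _ h1
    omega
  obtain ⟨N, hN⟩ : ∃ N : ℕ, ∀ k : ℤ, (N : ℤ) < |k| → z k = 0 := by
    obtain ⟨M, hM⟩ := (hfin.image (fun k : ℤ => |k|)).bddAbove
    refine ⟨M.toNat, fun k hk => ?_⟩
    by_contra hne
    have := hM ⟨k, hne, rfl⟩
    simp only at this
    have h2 : (M : ℤ) ≤ M.toNat := Int.self_le_toNat M
    omega
  have hneg : ∀ n : ℕ, z (-(N : ℤ) - 1 + n) = 0 ∨ 0 ≤ -(N : ℤ) - 1 + n := by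
    intro n
    induction n with
    | zero =>
      left
      apply hN
      rw [Nat.cast_zero, add_zero, abs_of_neg (by omega)]
      omega
    | succ n ih =>
      by_cases h0 : 0 ≤ -(N : ℤ) - 1 + (n + 1 : ℕ)
      · exact Or.inr h0
      · left
        rcases ih with ih | ih
        · rw [hrec1 _ (by omega)]
          have : -(N : ℤ) - 1 + ((n + 1 : ℕ) : ℤ) - 1 = -(N : ℤ) - 1 + n := by
            push_cast; ring
          rw [this, ih, mul_zero]
        · exfalso
          push_cast at h0
          omega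
  have hm1 : z (-1) = 0 := by
    rcases hneg N with h | h
    · have h2 : -(N : ℤ) - 1 + (N : ℤ) = -1 := by ring
      rwa [h2] at h
    · exfalso; omega
  have hpow : ∀ n : ℕ, z n = x ^ n := by
    intro n
    induction n with
    | zero =>
      rw [Nat.cast_zero, hrec, zero_sub, hm1, mul_zero, add_zero, pow_zero, neg_zero, zpow_zero,
        ← one_def, res_one]
    | succ n ih =>
      rw [hrec1 _ (by omega), pow_succ']
      have : ((n + 1 : ℕ) : ℤ) - 1 = n := by push_cast; ring
      rw [this, ih]
  refine ⟨N + 1, ?_⟩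
  rw [← hpow]
  apply hN
  rw [abs_of_nonneg (by omega)]
  push_cast
  omega

end Pool.Agent.Lib.MP_146d92_al
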