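import Pool.Agent.Lib.MP_146d92_al.Nil

namespace Pool.Agent.Lib.MP_146d92_al

open MonoidAlgebra

/-- A right inverse of `1 - a x` for `x` in the Jacobson radical. -/
theorem exists_right_inverse {R : Type*} [Ring R] {x : R} (hx : x ∈ Ring.jacobson R) (a : R) :
    ∃ z, (1 - a * x) * z = 1 := by
  rw [← Ideal.jacobson_bot, Ideal.mem_jacobson_iff] at hx
  obtain ⟨z, hz⟩ := hx (-a)
  obtain ⟨z', hz'⟩ := hx (z * a)
  rw [Ideal.mem_bot] at hz hz'
  have h1 : z * (1 - a * x) = 1 := by
    rw [← sub_eq_zero, ← hz]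
    noncomm_ring
  have h2 : z = 1 + z * a * x := by
    rw [← h1]; noncomm_ring
  have h3 : z' * z = 1 := by
    rw [← sub_eq_zero, ← hz']
    conv_lhs => rw [h2]
    noncomm_ring
  refine ⟨z, ?_⟩
  calc (1 - a * x) * z = (z' * z) * ((1 - a * x) * z) := by rw [h3, one_mul]
    _ = z' * (z * (1 - a * x)) * z := by simp only [mul_assoc]
    _ = 1 := by rw [h1, mul_one, h3]

/-- The local condition guaranteeing that the rational group algebra is semiprimitive. -/
def LocalCondition (G : Type*) [Group G] : Prop :=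
  ∀ F : Finset G, ∃ a b c : G, (∀ f ∈ F, a * f = f * a ∧ b * f = f * b) ∧
    a * b = b * a ^ 2 ∧ c * a = b * c ∧ a ≠ 1

theorem jacobson_eq_bot {G : Type*} [Group G] (hG : LocalCondition G) :
    Ring.jacobson (MonoidAlgebra ℚ G) = ⊥ := by
  rw [eq_bot_iff]
  intro x hx
  rw [Ideal.mem_bot]
  apply eq_zero_of_nil
  intro y
  have hw : y * x ∈ Ring.jacobson (MonoidAlgebra ℚ G) := Ideal.mul_mem_left _ _ hx
  generalize y * x = w at hw
  obtain ⟨a, b, c, hcomm, hab, hc, ha⟩ := hG w.coeff.support
  set H : Subgroup G := Subgroup.closure (w.coeff.support : Set G) with hH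
  have haH : ∀ h ∈ H, a * h = h * a := by
    intro h hh
    have : H ≤ Subgroup.centralizer {a} := by
      rw [hH, Subgroup.closure_le]
      intro f hf
      rw [SetLike.mem_coe, Subgroup.mem_centralizer_singleton_iff]
      exact (hcomm f hf).1.symm
    exact (Subgroup.mem_centralizer_singleton_iff.1 (this hh)).symm
  have hbH : ∀ h ∈ H, b * h = h * b := by
    intro h hh
    have : H ≤ Subgroup.centralizer {b} := by
      rw [hH, Subgroup.closure_le]
      intro f hf
      rw [SetLike.mem_coe, Subgroup.mem_centralizer_singleton_iff]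
      exact (hcomm f hf).2.symm
    exact (Subgroup.mem_centralizer_singleton_iff.1 (this hh)).symm
  obtain ⟨z, hz⟩ := exists_right_inverse hw (single a 1)
  exact isNilpotent_of_inverse (H := H) (fun g hg => Subgroup.subset_closure hg) haH
    (fun k hk => zpow_mem_imp hab hc ha H hbH k hk) hz

end Pool.Agent.Lib.MP_146d92_al
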